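import Pool.Agent.X265.LI.Loc

/-!
# A locally finite, locally integrable group that is not integrable

For an odd prime `f` let `B f` be the affine group of the field with `2 ^ f` elements and
`g f` the translation by `1`.  The group `G` consists of the elements of the full product
of the `B f` whose components are almost all equal to `1`, or almost all equal to `g f`.
Every finite subset lies in a finite direct product of groups `B f` with a group of order
two, which is integrable.  If `H' ≅ G`, then `H` acts on each `B f`, every element of `H`
fixes `g f` for almost all `f`, and so for almost all `f` the inner automorphism given by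
`g f` is a product of commutators of automorphisms of `B f` fixing `g f`; this is excluded
by the trace to the field with two elements.
-/

namespace Pool.Agent.Results.MP_2bd3fb_al.NotIntegrable

/-- `G` is integrable: it is isomorphic to the derived subgroup `[H, H]` of a group `H`
(in the universe `v`). -/
def IsIntegrable.{u, v} (G : Type u) [Group G] : Prop :=
  ∃ (H : Type v) (_ : Group H), Nonempty (commutator H ≃* G)

/-- every finitely generated subgroup is finite -/
def IsLocallyFinite.{u} (G : Type u) [Group G] : Prop :=
  ∀ S : Set G, S.Finite → (Subgroup.closure S : Set G).Finite

/-- every finite subset lies in an integrable subgroup -/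
def IsLocallyIntegrable.{u, v} (G : Type u) [Group G] : Prop :=
  ∀ S : Set G, S.Finite → ∃ K : Subgroup G, S ⊆ K ∧ IsIntegrable.{u, v} K

open Pool.Agent.X265.LI in
/-- There is a locally finite, locally integrable group that is not isomorphic to the
derived subgroup of any group whatsoever. -/
theorem result.{w} : ∃ (G : Type) (_ : Group G), IsLocallyFinite.{0} G ∧
    IsLocallyIntegrable.{0, 0} G ∧ ¬ IsIntegrable.{0, w} G := by
  refine ⟨G, inferInstance, ?_, ?_, ?_⟩
  · intro S hS
    obtain ⟨F, hF⟩ := finite_sub S hS
    have h1 : Subgroup.closure S ≤ (jj F).range := (Subgroup.closure_le _).mpr hF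
    have h2 : ((jj F).range : Set G).Finite := by
      rw [MonoidHom.coe_range]
      exact Set.finite_range _
    exact h2.subset h1
  · intro S hS
    obtain ⟨F, hF⟩ := finite_sub S hS
    exact ⟨(jj F).range, hF,
      ((emb_piece F).of_equiv (MonoidHom.ofInjective (jj_inj F)).symm).equiv⟩
  · rintro ⟨H, _, ⟨e⟩⟩
    exact no_integral e

end Pool.Agent.Results.MP_2bd3fb_al.NotIntegrable
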